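import Pool.Agent.MP_542436_nt.Abc.Defs

/-!
The moment bound: Cauchy-Schwarz in the unit group modulo a factor of the third number.
-/

set_option autoImplicit false

namespace Pool.Agent.MP_542436_nt.H78

open Finset Abc Real

theorem card_le_fib {α β : Type*} [DecidableEq β] (T : Finset α) (B : Finset β) (f : α → β)
    (hf : ∀ a ∈ T, f a ∈ B) {Q : ℝ}
    (h : ∀ b ∈ B, ((T.filter (fun a => f a = b)).card : ℝ) ≤ Q) : (T.card : ℝ) ≤ B.card * Q := by
  rw [card_eq_sum_card_fiberwise hf]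
  push_cast
  simpa using sum_le_card_nsmul B _ Q h

/-- The number of coincidences of two maps. -/
def en {α β G : Type*} [DecidableEq G] (A : Finset α) (B : Finset β) (f : α → G) (h : β → G) : ℕ :=
  ((A ×ˢ B).filter (fun x => f x.1 = h x.2)).card

theorem en_eq {α β G : Type*} [DecidableEq G] (A : Finset α) (B : Finset β) (f : α → G) (h : β → G)
    (T : Finset G) (hT : ∀ a ∈ A, f a ∈ T) :
    en A B f h = ∑ t ∈ T, (A.filter (f · = t)).card * (B.filter (h · = t)).card := by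
  unfold en
  rw [card_eq_sum_card_fiberwise (f := fun x => f x.1) (t := T)
    (fun x hx => hT _ (mem_product.1 (mem_filter.1 hx).1).1)]
  refine sum_congr rfl fun t _ => ?_
  rw [← card_product]
  congr 1
  ext x
  simp only [mem_filter, mem_product]
  constructor
  · rintro ⟨⟨⟨h1, h2⟩, h3⟩, h4⟩
    exact ⟨⟨h1, h4⟩, h2, h3 ▸ h4⟩
  · rintro ⟨⟨h1, h4⟩, h2, h3⟩
    exact ⟨⟨⟨h1, h2⟩, h4.trans h3.symm⟩, h4⟩

theorem en_cs {α β G : Type*} [DecidableEq G] {A : Finset α} {B : Finset β} {f : α → G} {h : β → G}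
    {a b : ℝ} (h1 : (en A A f f : ℝ) ≤ exp a) (h2 : (en B B h h : ℝ) ≤ exp b) :
    (en A B f h : ℝ) ≤ exp ((a + b) / 2) := by
  have hA : ∀ x ∈ A, f x ∈ A.image f ∪ B.image h := fun x hx =>
    mem_union_left _ (mem_image_of_mem f hx)
  have hB : ∀ x ∈ B, h x ∈ A.image f ∪ B.image h := fun x hx =>
    mem_union_right _ (mem_image_of_mem h hx)
  rw [en_eq _ _ _ _ _ hA] at h1 ⊢
  rw [en_eq _ _ _ _ _ hB] at h2
  push_cast at h1 h2 ⊢
  rw [← pow_le_pow_iff_left₀ (by positivity) (exp_pos _).le two_ne_zero, ← exp_nat_mul]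
  refine (sum_mul_sq_le_sq_mul_sq _ _ _).trans ?_
  simp only [sq]
  rw [show ((2 : ℕ) : ℝ) * ((a + b) / 2) = a + b by push_cast; ring, exp_add]
  exact mul_le_mul h1 h2 (by positivity) (exp_pos _).le

variable {G : Type*} [AddCommGroup G] [DecidableEq G]

theorem en_sub {β : Type*} (B : Finset β) (h : β → G) (c : G) :
    en B B (fun x => c - h x) (fun x => c - h x) = en B B h h := by
  simp only [en, sub_right_inj]

/-- A map to a group, additive on the set `P`, with few solutions of `p • ψ m = c`. -/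
structure Ctx (ψ : ℕ → G) (P : ℕ → Prop) (cap : ℕ) (E ω : ℝ) : Prop where
  mul : ∀ x y, P x → P y → P (x * y) ∧ ψ (x * y) = ψ x + ψ y
  div : DivB cap (exp E)
  one : 1 ≤ cap
  root : ∀ p, 1 ≤ p → p ≤ 6 → ∀ (c : G) (σ : ℝ) (T : Finset ℕ),
    (∀ m ∈ T, (m : ℝ) ≤ exp σ ∧ P m ∧ p • ψ m = c) → (T.card : ℝ) ≤ exp (max 0 (σ - ω) + 5 * E)

/-- A set of values with bounded size and number. -/
structure Box (P : ℕ → Prop) (cap : ℕ) (U : Finset ℕ) (ρ σ : ℝ) : Prop where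
  card : (U.card : ℝ) ≤ exp ρ
  mem : ∀ x ∈ U, 0 < x ∧ x ≤ cap ∧ P x ∧ (x : ℝ) ≤ exp σ

variable {ψ : ℕ → G} {P : ℕ → Prop} {cap : ℕ} {E ω : ℝ}

theorem Ctx.cnt2 (h : Ctx ψ P cap E ω) {U V : Finset ℕ} {ρ σ ρ' σ' : ℝ} (hU : Box P cap U ρ σ)
    (hV : Box P cap V ρ' σ') {p : ℕ} (h1 : 1 ≤ p) (h6 : p ≤ 6) (c : G) :
    (((U ×ˢ V).filter fun x => p • (ψ x.1 + ψ x.2) = c).card : ℝ) ≤
      exp (max 0 (σ + σ' - ω) + 7 * E) := by
  set T := (U ×ˢ V).filter fun x => p • (ψ x.1 + ψ x.2) = c with hT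
  have hm : ∀ x ∈ T, x.1 ∈ U ∧ x.2 ∈ V ∧ p • (ψ x.1 + ψ x.2) = c := fun x hx => by
    simpa [hT, and_assoc] using hx
  refine (card_le_fib T (T.image fun x => x.1 * x.2) _ (fun x hx => mem_image_of_mem _ hx)
    (Q := exp E * exp E) fun m hm' => ?_).trans ?_
  · obtain ⟨y, hy, rfl⟩ := mem_image.1 hm'
    obtain ⟨a1, a2, -⟩ := hU.mem _ (hm y hy).1
    obtain ⟨b1, b2, -⟩ := hV.mem _ (hm y hy).2.1
    have hd := h.div (y.1 * y.2) ((Nat.mul_le_mul a2 b2).trans (by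
      rw [← sq]; exact Nat.pow_le_pow_right h.one (by norm_num)))
    have hs : T.filter (fun x => x.1 * x.2 = y.1 * y.2) ⊆
        (y.1 * y.2).divisors ×ˢ (y.1 * y.2).divisors := by
      intro x hx
      have h0 := (Nat.mul_pos a1 b1).ne'
      rw [← (mem_filter.1 hx).2] at h0 ⊢
      exact mem_product.2 ⟨Nat.mem_divisors.2 ⟨dvd_mul_right _ _, h0⟩,
        Nat.mem_divisors.2 ⟨dvd_mul_left _ _, h0⟩⟩
    refine (Nat.cast_le.2 (card_le_card hs)).trans ?_
    rw [card_product, Nat.cast_mul]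
    exact mul_le_mul hd hd (by positivity) (exp_pos _).le
  · have h2 := h.root p h1 h6 c (σ + σ') (T.image fun x => x.1 * x.2) (by
      intro m hm'
      obtain ⟨y, hy, rfl⟩ := mem_image.1 hm'
      obtain ⟨-, -, a3, a4⟩ := hU.mem _ (hm y hy).1
      obtain ⟨-, -, b3, b4⟩ := hV.mem _ (hm y hy).2.1
      refine ⟨?_, (h.mul _ _ a3 b3).1, by rw [(h.mul _ _ a3 b3).2, (hm y hy).2.2]⟩
      rw [Nat.cast_mul, exp_add]
      exact mul_le_mul a4 b4 (by positivity) (exp_pos _).le)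
    refine (mul_le_mul_of_nonneg_right h2 (by positivity)).trans_eq ?_
    rw [← exp_add, ← exp_add]
    congr 1
    ring

theorem Ctx.cnt4 (h : Ctx ψ P cap E ω) {U V : Finset ℕ} {ρ σ ρ' σ' : ℝ} (hU : Box P cap U ρ σ)
    (hV : Box P cap V ρ' σ') {p : ℕ} (h1 : 1 ≤ p) (h6 : p ≤ 6) (c : G) :
    ((((U ×ˢ V) ×ˢ (U ×ˢ V)).filter fun x =>
      p • (ψ x.1.1 + ψ x.1.2 + (ψ x.2.1 + ψ x.2.2)) = c).card : ℝ) ≤
      exp (max 0 (2 * (σ + σ') - ω) + 9 * E) := by
  set T := ((U ×ˢ V) ×ˢ (U ×ˢ V)).filter fun x =>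
    p • (ψ x.1.1 + ψ x.1.2 + (ψ x.2.1 + ψ x.2.2)) = c with hT
  have hm : ∀ x ∈ T, x.1.1 ∈ U ∧ x.1.2 ∈ V ∧ x.2.1 ∈ U ∧ x.2.2 ∈ V ∧
      p • (ψ x.1.1 + ψ x.1.2 + (ψ x.2.1 + ψ x.2.2)) = c := fun x hx => by
    simpa [hT, and_assoc] using hx
  refine (card_le_fib T (T.image fun x => x.1.1 * x.1.2 * (x.2.1 * x.2.2)) _
    (fun x hx => mem_image_of_mem _ hx)
    (Q := exp E * exp E * (exp E * exp E)) fun m hm' => ?_).trans ?_
  · obtain ⟨y, hy, hym⟩ := mem_image.1 hm'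
    obtain ⟨y1, y2, y3, y4, -⟩ := hm y hy
    obtain ⟨a1, a2, -⟩ := hU.mem _ y1
    obtain ⟨b1, b2, -⟩ := hV.mem _ y2
    obtain ⟨c1, c2, -⟩ := hU.mem _ y3
    obtain ⟨d1, d2, -⟩ := hV.mem _ y4
    have hd := h.div m (by
      rw [← hym]
      exact (Nat.mul_le_mul (Nat.mul_le_mul a2 b2) (Nat.mul_le_mul c2 d2)).trans_eq (by ring))
    have h0 : m ≠ 0 := by
      rw [← hym]
      positivity
    have hs : T.filter (fun x => x.1.1 * x.1.2 * (x.2.1 * x.2.2) = m) ⊆
        (m.divisors ×ˢ m.divisors) ×ˢ (m.divisors ×ˢ m.divisors) := by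
      intro x hx
      have h2 := (mem_filter.1 hx).2
      simp only [mem_product, Nat.mem_divisors]
      exact ⟨⟨⟨⟨x.1.2 * (x.2.1 * x.2.2), by rw [← h2]; ring⟩, h0⟩,
        ⟨x.1.1 * (x.2.1 * x.2.2), by rw [← h2]; ring⟩, h0⟩,
        ⟨⟨x.1.1 * x.1.2 * x.2.2, by rw [← h2]; ring⟩, h0⟩,
        ⟨x.1.1 * x.1.2 * x.2.1, by rw [← h2]; ring⟩, h0⟩
    refine (Nat.cast_le.2 (card_le_card hs)).trans ?_
    simp only [card_product, Nat.cast_mul]
    gcongr
  · have h2 := h.root p h1 h6 c (2 * (σ + σ')) (T.image fun x => x.1.1 * x.1.2 * (x.2.1 * x.2.2))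
      (by
        intro m hm'
        obtain ⟨y, hy, rfl⟩ := mem_image.1 hm'
        obtain ⟨y1, y2, y3, y4, y5⟩ := hm y hy
        obtain ⟨-, -, a3, a4⟩ := hU.mem _ y1
        obtain ⟨-, -, b3, b4⟩ := hV.mem _ y2
        obtain ⟨-, -, c3, c4⟩ := hU.mem _ y3
        obtain ⟨-, -, d3, d4⟩ := hV.mem _ y4
        have e1 := h.mul _ _ a3 b3
        have e2 := h.mul _ _ c3 d3
        have e3 := h.mul _ _ e1.1 e2.1
        refine ⟨?_, e3.1, by rw [e3.2, e1.2, e2.2, y5]⟩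
        rw [two_mul, exp_add, exp_add]
        push_cast
        gcongr)
    refine (mul_le_mul_of_nonneg_right h2 (by positivity)).trans_eq ?_
    simp only [← exp_add]
    congr 1
    ring

/-- The value attached to a pair. -/
def ph (ψ : ℕ → G) (p : ℕ) (x : ℕ × ℕ) : G := p • (ψ x.1 - ψ x.2)

theorem Ctx.four (h : Ctx ψ P cap E ω) {U V : Finset ℕ} {ρ σ ρ' σ' : ℝ} (hU : Box P cap U ρ σ)
    (hV : Box P cap V ρ' σ') {p : ℕ} (h1 : 1 ≤ p) (h6 : p ≤ 6) :
    (en ((U ×ˢ V) ×ˢ (U ×ˢ V)) ((U ×ˢ V) ×ˢ (U ×ˢ V)) (fun x => ph ψ p x.1 - ph ψ p x.2)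
      (fun x => ph ψ p x.1 - ph ψ p x.2) : ℝ) ≤
      exp (2 * (ρ + ρ') + max 0 (2 * (σ + σ') - ω) + 9 * E) := by
  unfold en
  refine (card_le_fib _ ((U ×ˢ V) ×ˢ (U ×ˢ V))
    (fun x => ((x.1.2.1, x.1.1.2), (x.2.1.1, x.2.2.2))) (fun x hx => ?_)
    (Q := exp (max 0 (2 * (σ + σ') - ω) + 9 * E)) fun b _ => ?_).trans ?_
  · simp only [mem_filter, mem_product] at hx ⊢
    tauto
  · refine le_trans (Nat.cast_le.2 (card_le_card_of_injOn
      (fun x => ((x.1.1.1, x.1.2.2), (x.2.2.1, x.2.1.2))) (fun x hx => ?_) ?_))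
      (h.cnt4 hU hV h1 h6 (p • (ψ b.1.1 + ψ b.1.2 + (ψ b.2.1 + ψ b.2.2))))
    · simp only [coe_filter, mem_filter, mem_product, Set.mem_ofPred_eq, ph] at hx ⊢
      obtain ⟨⟨h2, h3⟩, rfl⟩ := hx
      refine ⟨by tauto, ?_⟩
      linear_combination (norm := module) h3
    · rintro ⟨⟨⟨a1, a2⟩, a3, a4⟩, ⟨a5, a6⟩, a7, a8⟩ hx ⟨⟨⟨b1, b2⟩, b3, b4⟩, ⟨b5, b6⟩, b7, b8⟩ hy hxy
      have h2 := (mem_filter.1 hx).2.trans (mem_filter.1 hy).2.symm
      simp only [Prod.mk.injEq] at h2 hxy ⊢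
      tauto
  · have h2 := hU.card
    have h3 := hV.card
    simp only [card_product, Nat.cast_mul]
    refine le_trans (b := exp ρ * exp ρ' * (exp ρ * exp ρ') *
      exp (max 0 (2 * (σ + σ') - ω) + 9 * E)) (by gcongr) ?_
    simp only [← exp_add]
    exact exp_le_exp.2 (by linarith)

theorem Ctx.half (h : Ctx ψ P cap E ω) (hE : 0 ≤ E) {U0 V0 U1 V1 : Finset ℕ}
    {ρ0 σ0 ρ0' σ0' ρ1 σ1 ρ1' σ1' : ℝ} (hU0 : Box P cap U0 ρ0 σ0) (hV0 : Box P cap V0 ρ0' σ0')
    (hU1 : Box P cap U1 ρ1 σ1) (hV1 : Box P cap V1 ρ1' σ1') {p0 p1 : ℕ} (h01 : 1 ≤ p0)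
    (h06 : p0 ≤ 6) (h11 : 1 ≤ p1) (h16 : p1 ≤ 6) (a : Bool) :
    (en ((U0 ×ˢ V0) ×ˢ (U1 ×ˢ V1)) ((U0 ×ˢ V0) ×ˢ (U1 ×ˢ V1))
      (fun x => ph ψ p0 x.1 + ph ψ p1 x.2) (fun x => ph ψ p0 x.1 + ph ψ p1 x.2) : ℝ) ≤
      exp (2 * hc a (ρ0 + ρ0') (ρ1 + ρ1') (σ0 + σ0') (σ1 + σ1') ω + 9 * E) := by
  cases a
  · refine le_trans ?_ ((en_cs (h.four hU0 hV0 h01 h06) (h.four hU1 hV1 h11 h16)).trans_eq ?_)
    · unfold en
      refine Nat.cast_le.2 (card_le_card_of_injOn (fun x => ((x.1.1, x.2.1), (x.2.2, x.1.2)))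
        (fun x hx => ?_) ?_)
      · simp only [coe_filter, mem_product, Set.mem_ofPred_eq] at hx ⊢
        refine ⟨by tauto, ?_⟩
        linear_combination (norm := module) hx.2
      · rintro ⟨⟨a1, a2⟩, a3, a4⟩ - ⟨⟨b1, b2⟩, b3, b4⟩ - hxy
        simp only [Prod.mk.injEq] at hxy ⊢
        tauto
    · congr 1
      simp only [hc, Bool.false_eq_true, if_false]
      ring
  · unfold en
    refine (card_le_fib _ ((U0 ×ˢ V0) ×ˢ ((U1 ×ˢ V1) ×ˢ (U1 ×ˢ V1)))
      (fun x => ((x.1.1.1, x.2.1.2), (x.1.2, x.2.2))) (fun x hx => ?_)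
      (Q := exp (max 0 (σ0 + σ0' - ω) + 7 * E)) fun b _ => ?_).trans ?_
    · simp only [mem_filter, mem_product] at hx ⊢
      tauto
    · refine le_trans (Nat.cast_le.2 (card_le_card_of_injOn
        (fun x => (x.2.1.1, x.1.1.2)) (fun x hx => ?_) ?_))
        (h.cnt2 hU0 hV0 h01 h06 (p0 • (ψ b.1.1 + ψ b.1.2) + ph ψ p1 b.2.1 - ph ψ p1 b.2.2))
      · simp only [coe_filter, mem_filter, mem_product, Set.mem_ofPred_eq, ph] at hx ⊢
        obtain ⟨⟨h2, h3⟩, rfl⟩ := hx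
        refine ⟨by tauto, ?_⟩
        linear_combination (norm := module) -h3
      · rintro ⟨⟨⟨a1, a2⟩, a3⟩, ⟨a5, a6⟩, a7⟩ hx ⟨⟨⟨b1, b2⟩, b3⟩, ⟨b5, b6⟩, b7⟩ hy hxy
        have h2 := (mem_filter.1 hx).2.trans (mem_filter.1 hy).2.symm
        simp only [Prod.mk.injEq] at h2 hxy ⊢
        tauto
    · have h2 := hU0.card
      have h3 := hV0.card
      have h4 := hU1.card
      have h5 := hV1.card
      simp only [card_product, Nat.cast_mul, hc, if_true]
      refine le_trans (b := exp ρ0 * exp ρ0' * (exp ρ1 * exp ρ1' * (exp ρ1 * exp ρ1')) *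
        exp (max 0 (σ0 + σ0' - ω) + 7 * E)) (by gcongr) ?_
      simp only [← exp_add]
      exact exp_le_exp.2 (by linarith)

/-- The class of a natural number in the unit group. -/
noncomputable def psi (w x : ℕ) : Additive (ZMod w)ˣ :=
  Additive.ofMul (if h : Nat.Coprime x w then ZMod.unitOfCoprime x h else 1)

theorem psi_coe {w x : ℕ} (h : Nat.Coprime x w) :
    ((Additive.toMul (psi w x) : (ZMod w)ˣ) : ZMod w) = x := by
  rw [psi, toMul_ofMul, dif_pos h, ZMod.coe_unitOfCoprime]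

theorem ctx (hR : RootStmt) {w cap : ℕ} {E ω : ℝ} (hw : 0 < w) (hwc : w ≤ cap) (hE : 1 ≤ E)
    (hd : DivB cap (exp E)) (hω : exp ω ≤ w) :
    Ctx (psi w) (fun x => Nat.Coprime x w) cap E ω := by
  refine ⟨fun x y hx hy => ⟨Nat.Coprime.mul_left hx hy, ?_⟩, hd, hw.trans_le hwc,
    fun p h1 h6 c σ T hT => ?_⟩
  · apply Additive.toMul.injective
    apply Units.ext
    rw [toMul_add, Units.val_mul, psi_coe hx, psi_coe hy, psi_coe (Nat.Coprime.mul_left hx hy),
      Nat.cast_mul]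
  · obtain ⟨b, hb⟩ := ZMod.intCast_surjective ((Additive.toMul c : (ZMod w)ˣ) : ZMod w)
    obtain ⟨Z, hZ, hZ'⟩ := hR w p 1 b hw h1 h6 isCoprime_one_left
    have hw' : (0 : ℝ) < w := by exact_mod_cast hw
    have h2 : T.card ≤ ((Z.image fun z : ℤ => (z % w).toNat) ×ˢ range (⌊exp σ / w⌋₊ + 1)).card := by
      refine card_le_card_of_injOn (fun m => (m % w, m / w)) (fun m hm => ?_) ?_
      · obtain ⟨h3, h4, h5⟩ := hT m hm
        obtain ⟨z, hz, h7⟩ := hZ' m 1 (Nat.isCoprime_iff_coprime.2 h4) isCoprime_one_left (by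
          rw [← ZMod.intCast_zmod_eq_zero_iff_dvd]
          push_cast
          rw [hb, ← h5, toMul_nsmul, Units.val_pow_eq_pow_val, psi_coe h4]
          ring)
        refine mem_coe.2 (mem_product.2 ⟨mem_image.2 ⟨z, hz, ?_⟩, mem_range.2 ?_⟩)
        · rw [mul_one] at h7
          have h8 : z % w = (m : ℤ) % w := (Int.modEq_iff_dvd.2 h7)
          rw [h8, ← Int.natCast_mod, Int.toNat_natCast]
        · exact Nat.lt_succ_of_le (Nat.le_floor (Nat.cast_div_le.trans (by gcongr)))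
      · intro m _ m' _ h3
        simp only [Prod.mk.injEq] at h3
        rw [← Nat.mod_add_div m w, ← Nat.mod_add_div m' w, h3.1, h3.2]
    have h3 : ((Z.image fun z : ℤ => (z % w).toNat).card : ℝ) ≤ exp (4 * E) := by
      have h4 := hd w (hwc.trans (Nat.le_self_pow (by norm_num) _))
      refine (Nat.cast_le.2 (card_image_le.trans hZ)).trans ?_
      rw [show 4 * E = ((4 : ℕ) : ℝ) * E by norm_num, exp_nat_mul]
      push_cast
      gcongr
    have h4 : ((⌊exp σ / w⌋₊ + 1 : ℕ) : ℝ) ≤ exp (max 0 (σ - ω) + E) := by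
      have h5 : exp σ / w ≤ exp (max 0 (σ - ω)) := by
        refine le_trans ?_ (exp_le_exp.2 (le_max_right _ _))
        rw [exp_sub]
        gcongr
      have h7 : 1 ≤ exp (max 0 (σ - ω)) := one_le_exp (le_max_left _ _)
      have h8 : 2 ≤ exp E := by linarith [add_one_le_exp E]
      have h9 := Nat.floor_le (a := exp σ / w) (by positivity)
      rw [exp_add]
      push_cast
      nlinarith
    refine (Nat.cast_le.2 h2).trans ?_
    rw [card_product, card_range, Nat.cast_mul]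
    refine (mul_le_mul h3 h4 (by positivity) (exp_pos _).le).trans_eq ?_
    rw [← exp_add]
    congr 1
    ring

theorem hc_le (a : Bool) (r0 r1 s0 s1 w E : ℝ) (hE : 0 ≤ E) :
    hc a (r0 + 2 * E) (r1 + 2 * E) (s0 + 2 * E) (s1 + 2 * E) (w - E) ≤
      hc a r0 r1 s0 s1 w + 5 * E := by
  have h : ∀ x c : ℝ, 0 ≤ c → max 0 (x + c) ≤ max 0 x + c := fun x c hc =>
    max_le (by positivity) (by linarith [le_max_right 0 x])
  have h1 := h (s0 - w) (3 * E) (by positivity)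
  have h2 := h (2 * s0 - w) (5 * E) (by positivity)
  have h3 := h (2 * s1 - w) (5 * E) (by positivity)
  cases a
  · simp only [hc, Bool.false_eq_true, if_false]
    rw [show 2 * (s0 + 2 * E) - (w - E) = 2 * s0 - w + 5 * E by ring,
      show 2 * (s1 + 2 * E) - (w - E) = 2 * s1 - w + 5 * E by ring]
    linarith
  · simp only [hc, if_true]
    rw [show s0 + 2 * E - (w - E) = s0 - w + 3 * E by ring]
    linarith

theorem mS (hR : RootStmt) : MStmt := by
  classical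
  intro k p a b S e r s L E cap hp1 hp6 hp4 hG
  obtain ⟨j, l, hj, hl, hjl, hall⟩ := (by decide : ∀ k : Fin 3, ∃ j l : Fin 3, j ≠ k ∧ l ≠ k ∧
    j ≠ l ∧ ∀ i, i = j ∨ i = l ∨ i = k) k
  have hsum : ∀ {M : Type} [AddCommMonoid M] (f : Fin 3 → M), ∑ i, f i = f j + f l + f k := by
    intro M _ f
    rw [show (univ : Finset (Fin 3)) = {j, l, k} by ext i; simpa using hall i,
      sum_insert (by simp [hj, hjl]), sum_pair hl, add_assoc]
  have hE0 : 0 ≤ E := zero_le_one.trans hG.hE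
  set ex : Fin 3 → Fin 5 → ℕ := fun j g => if j = k then 1 else p g with hex
  have hdvd : ∀ u i g, u i g ∣ nm ex u i := fun u i g =>
    (dvd_pow_self _ (by
      simp only [hex]
      split_ifs
      · exact one_ne_zero
      · exact Nat.one_le_iff_ne_zero.1 (hp1 g))).trans (dvd_prod_of_mem _ (mem_univ g))
  have hpos : ∀ u ∈ S, ∀ i, 0 < nm ex u i := fun u hu i =>
    prod_pos fun g _ => pow_pos (hG.pos u hu i g) _
  have hle : ∀ u ∈ S, ∀ i g, u i g ≤ cap := fun u hu i g =>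
    (Nat.le_of_dvd (hpos u hu i) (hdvd u i g)).trans (hG.le_cap u hu i)
  have hnm : ∀ u i, i ≠ k → nm ex u i =
      u i 0 ^ p 0 * u i 1 ^ p 1 * u i 2 ^ p 2 * u i 3 ^ p 3 * u i 4 := by
    intro u i hi
    simp [nm, hex, hi, Fin.prod_univ_five, hp4]
  refine (card_le_fib S ((S.image fun u => u j 4) ×ˢ (S.image fun u => u l 4) ×ˢ
    (S.image fun u => u k 4)) (fun u => (u j 4, u l 4, u k 4)) (fun u hu => mem_product.2
      ⟨mem_image_of_mem _ hu, mem_product.2 ⟨mem_image_of_mem _ hu, mem_image_of_mem _ hu⟩⟩)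
    (Q := exp (hc a (oth k r 0) (oth k r 1) (oth k s 0 / p 0) (oth k s 1 / p 1) (s k 4) +
      hc b (oth k r 2) (oth k r 3) (oth k s 2 / p 2) (oth k s 3 / p 3) (s k 4) + 23 * E))
    ?_).trans ?_
  swap
  · have h1 := hG.card j 4
    have h2 := hG.card l 4
    have h3 := hG.card k 4
    simp only [card_product, Nat.cast_mul]
    refine le_trans (mul_le_mul_of_nonneg_right (show _ ≤ exp (r j 4 + E) *
      (exp (r l 4 + E) * exp (r k 4 + E)) by gcongr) (exp_pos _).le) ?_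
    simp only [← exp_add, mB, hsum]
    exact exp_le_exp.2 (by linarith)
  rintro ⟨A, B, w⟩ hb
  set S' := S.filter fun u => (u j 4, u l 4, u k 4) = (A, B, w) with hS'
  have hm : ∀ u ∈ S', u ∈ S ∧ u j 4 = A ∧ u l 4 = B ∧ u k 4 = w := fun u hu => by
    simpa [hS'] using hu
  obtain ⟨u0, hu0, hw0⟩ := mem_image.1 (mem_product.1 (mem_product.1 hb).2).2
  simp only at hw0
  have hw : 0 < w := hw0 ▸ hG.pos u0 hu0 k 4
  have hC := ctx hR hw (hw0 ▸ hle u0 hu0 k 4) hG.hE hG.div (ω := s k 4 - E) (by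
    have h1 := (abs_le.1 (hG.size u0 hu0 k 4)).1
    simp only [hex, if_true, Nat.cast_one, one_mul, hw0] at h1
    rw [← exp_log (show (0 : ℝ) < w by exact_mod_cast hw)]
    exact exp_le_exp.2 (by linarith))
  have hcop : ∀ u ∈ S', ∀ i, i ≠ k → ∀ g, Nat.Coprime (u i g) w := fun u hu i hi g =>
    (hm u hu).2.2.2 ▸ (((hG.cop u (hm u hu).1 i k hi).coprime_dvd_left
      (hdvd u i g)).coprime_dvd_right (hdvd u k 4))
  have hbox : ∀ i, i ≠ k → ∀ g, Box (fun x => Nat.Coprime x w) cap (S'.image fun u => u i g)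
      (r i g + E) (s i g / p g + E) := by
    intro i hi g
    refine ⟨le_trans (Nat.cast_le.2 (card_le_card (image_subset_image (filter_subset _ _))))
      (hG.card i g), fun x hx => ?_⟩
    obtain ⟨u, hu, rfl⟩ := mem_image.1 hx
    have h0 := hG.pos u (hm u hu).1 i g
    refine ⟨h0, hle u (hm u hu).1 i g, hcop u hu i hi g, ?_⟩
    have h1 := (abs_le.1 (hG.size u (hm u hu).1 i g)).2
    simp only [hex, hi, if_false] at h1
    have h2 : (1 : ℝ) ≤ p g := by exact_mod_cast hp1 g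
    rw [← exp_log (show (0 : ℝ) < u i g by exact_mod_cast h0)]
    refine exp_le_exp.2 ?_
    rw [← sub_le_iff_le_add, le_div_iff₀ (by linarith)]
    nlinarith
  have hoth : ∀ (f : Fin 3 → Fin 5 → ℝ) g, oth k f g = f j g + f l g := by
    intro f g
    simp [oth, hsum, hj, hl]
  obtain ⟨c, hc0⟩ : ∃ c : Additive (ZMod w)ˣ, ∀ u ∈ S',
      ph (psi w) (p 0) (u j 0, u l 0) + ph (psi w) (p 1) (u j 1, u l 1) =
        c - (ph (psi w) (p 2) (u j 2, u l 2) + ph (psi w) (p 3) (u j 3, u l 3)) := by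
    refine ⟨Additive.ofMul (if e j = e l then -1 else 1) + psi w B - psi w A, fun u hu => ?_⟩
    obtain ⟨h1, h2, h3, h4⟩ := hm u hu
    have h5 : p 0 • psi w (u j 0) + p 1 • psi w (u j 1) + p 2 • psi w (u j 2) +
        p 3 • psi w (u j 3) + psi w (u j 4) = Additive.ofMul (if e j = e l then -1 else 1) +
        (p 0 • psi w (u l 0) + p 1 • psi w (u l 1) + p 2 • psi w (u l 2) +
          p 3 • psi w (u l 3) + psi w (u l 4)) := by
      apply Additive.toMul.injective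
      apply Units.ext
      simp only [toMul_add, toMul_nsmul, Units.val_mul, Units.val_pow_eq_pow_val, toMul_ofMul,
        psi_coe (hcop u hu j hj _), psi_coe (hcop u hu l hl _)]
      have h6 := congrArg (Int.cast : ℤ → ZMod w) (hG.eqn u h1)
      have h7 : ((nm ex u k : ℕ) : ZMod w) = 0 :=
        (ZMod.natCast_eq_zero_iff _ _).2 (h4 ▸ hdvd u k 4)
      rw [hsum, hnm u j hj, hnm u l hl] at h6
      push_cast at h6
      rw [h7] at h6
      rcases hG.he j with h8 | h8 <;> rcases hG.he l with h9 | h9 <;>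
        simp only [h8, h9, Int.cast_one, Int.cast_neg] at h6 ⊢ <;> norm_num
      · linear_combination h6
      · linear_combination h6
      · linear_combination -h6
      · linear_combination -h6
    simp only [ph]
    rw [← h2, ← h3]
    linear_combination (norm := module) h5
  have h1 := hC.half hE0 (hbox j hj 0) (hbox l hl 0) (hbox j hj 1) (hbox l hl 1) (hp1 0) (hp6 0)
    (hp1 1) (hp6 1) a
  have h2 := hC.half hE0 (hbox j hj 2) (hbox l hl 2) (hbox j hj 3) (hbox l hl 3) (hp1 2) (hp6 2)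
    (hp1 3) (hp6 3) b
  rw [← en_sub _ _ c] at h2
  have h3 := en_cs h1 h2
  unfold en at h3
  refine (card_le_fib S' _ (fun u => (((u j 0, u l 0), (u j 1, u l 1)),
    ((u j 2, u l 2), (u j 3, u l 3)))) (fun u hu => ?_) (Q := exp (4 * E)) fun t _ => ?_).trans
    ((mul_le_mul_of_nonneg_right h3 (exp_pos _).le).trans ?_)
  · have h4 : ∀ i g, u i g ∈ S'.image fun u => u i g := fun i g => mem_image_of_mem _ hu
    simp only [mem_filter, mem_product, h4, and_self, true_and]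
    exact hc0 u hu
  · rcases (S'.filter fun u => (((u j 0, u l 0), (u j 1, u l 1)),
      ((u j 2, u l 2), (u j 3, u l 3))) = t).eq_empty_or_nonempty with h4 | ⟨v, hv⟩
    · rw [h4]
      simpa using (exp_pos _).le
    have hfix : ∀ u ∈ S'.filter fun u => (((u j 0, u l 0), (u j 1, u l 1)),
        ((u j 2, u l 2), (u j 3, u l 3))) = t, u j = v j ∧ u l = v l ∧ u k 4 = v k 4 := by
      intro u hu
      have h4 := (mem_filter.1 hu).2.trans (mem_filter.1 hv).2.symm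
      obtain ⟨-, a1, a2, a3⟩ := hm u (mem_filter.1 hu).1
      obtain ⟨-, b1, b2, b3⟩ := hm v (mem_filter.1 hv).1
      simp only [Prod.mk.injEq] at h4
      refine ⟨funext fun g => ?_, funext fun g => ?_, a3.trans b3.symm⟩ <;> fin_cases g <;>
        simp only [Fin.zero_eta, Fin.mk_one, Fin.reduceFinMk] <;> first | tauto | omega
    have hvS := (hm v (mem_filter.1 hv).1).1
    have hd := hG.div (nm ex v k) ((hG.le_cap v hvS k).trans (Nat.le_self_pow (by norm_num) _))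
    refine le_trans (Nat.cast_le.2 (card_le_card_of_injOn
      (t := ((nm ex v k).divisors ×ˢ (nm ex v k).divisors) ×ˢ
        ((nm ex v k).divisors ×ˢ (nm ex v k).divisors))
      (fun u => ((u k 0, u k 1), (u k 2, u k 3))) (fun u hu => ?_) fun u hu u' hu' h4 => ?_)) ?_
    · obtain ⟨h5, h6, -⟩ := hfix u hu
      have h7 := hG.eqn u (hm u (mem_filter.1 hu).1).1
      have h8 := hG.eqn v hvS
      have h9 : nm ex u k = nm ex v k := by
        rw [hsum] at h7 h8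
        rw [show nm ex u j = nm ex v j by simp only [nm, h5],
          show nm ex u l = nm ex v l by simp only [nm, h6]] at h7
        rcases hG.he k with h10 | h10 <;> rw [h10] at h7 h8 <;> omega
      have h10 : ∀ g, u k g ∈ (nm ex v k).divisors := fun g =>
        Nat.mem_divisors.2 ⟨h9 ▸ hdvd u k g, (hpos v hvS k).ne'⟩
      simp [h10]
    · obtain ⟨a1, a2, a3⟩ := hfix u hu
      obtain ⟨b1, b2, b3⟩ := hfix u' hu'
      simp only [Prod.mk.injEq] at h4
      funext i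
      rcases hall i with rfl | rfl | rfl
      · rw [a1, b1]
      · rw [a2, b2]
      · funext g
        fin_cases g <;> simp only [Fin.zero_eta, Fin.mk_one, Fin.reduceFinMk] <;>
          first | tauto | omega
    · simp only [card_product, Nat.cast_mul]
      rw [show 4 * E = E + E + (E + E) by ring, exp_add, exp_add]
      gcongr
  · rw [← exp_add]
    refine exp_le_exp.2 ?_
    have h4 := hc_le a (oth k r 0) (oth k r 1) (oth k s 0 / p 0) (oth k s 1 / p 1) (s k 4) E hE0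
    have h5 := hc_le b (oth k r 2) (oth k r 3) (oth k s 2 / p 2) (oth k s 3 / p 3) (s k 4) E hE0
    have h6 : ∀ x y : ℝ, x + E + (y + E) = x + y + 2 * E := fun x y => by ring
    simp only [hoth, add_div] at h4 h5 ⊢
    simp only [h6]
    linarith

end Pool.Agent.MP_542436_nt.H78
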